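import Pool.Agent.W213.WS.Chain

set_option autoImplicit false

namespace Pool.Agent.W213.WS

open Finset Filter

/-- Every family with at least `1.98^n` members satisfies the smoothness hypothesis. -/
lemma smooth {n W c q : ℕ} (hq : 2 ≤ q) (hW : 0 < W) (hc : 0 < c) (hcn : 8 * (n+1) ≤ c^3)
    (hqW : 36 * W^2 * c^2 ≤ q + 1)
    (hbig : (64 * ((n+1 : ℕ):ℝ))^(q+1) * (39/10)^n ≤ ((1.98:ℝ)^2)^n)
    (F : Finset (Finset (Fin n))) (hF : (1.98:ℝ)^n ≤ #F) :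
    ∀ z : ℂ, ‖z‖ = 1 →
      (min (W * ‖1 - z‖) 2)^3 * ‖∑ A ∈ F, ∑ B ∈ F, z^(#(A ∩ B))‖
        ≤ (#F:ℝ)^2 / (8 * ((n+1:ℕ):ℝ)) := by
  intro z hz
  have hW' : (0:ℝ) < W := by exact_mod_cast hW
  have hc' : (0:ℝ) < c := by exact_mod_cast hc
  have hQ : (0:ℝ) < ((n+1:ℕ):ℝ) := by positivity
  have hcn' : 8 * ((n+1:ℕ):ℝ) ≤ (c:ℝ)^3 := by exact_mod_cast hcn
  have hF0 : (0:ℝ) < #F := lt_of_lt_of_le (by positivity) hF
  have htriv : ‖∑ A ∈ F, ∑ B ∈ F, z^(#(A ∩ B))‖ ≤ (#F:ℝ)^2 := by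
    refine (norm_sum_le _ _).trans ?_
    calc ∑ A ∈ F, ‖∑ B ∈ F, z^(#(A ∩ B))‖ ≤ ∑ A ∈ F, (#F : ℝ) := by
          refine sum_le_sum fun A _ => (norm_sum_le _ _).trans ?_
          simp [norm_pow, hz]
      _ = (#F:ℝ)^2 := by simp [sq]
  rcases le_or_gt (W * ‖1-z‖ * c) 1 with h | h
  · have h1 : min (W * ‖1 - z‖) 2 ≤ 1 / c := by
      refine (min_le_left _ _).trans ?_
      rw [le_div_iff₀ hc']; exact h
    have h0 : 0 ≤ min (W * ‖1 - z‖) 2 := by positivity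
    calc (min (W * ‖1 - z‖) 2)^3 * ‖∑ A ∈ F, ∑ B ∈ F, z^(#(A ∩ B))‖
        ≤ (1/c)^3 * (#F:ℝ)^2 := by gcongr
      _ = (#F:ℝ)^2 / (c:ℝ)^3 := by field_simp
      _ ≤ (#F:ℝ)^2 / (8 * ((n+1:ℕ):ℝ)) := by gcongr
  · have h0 : 0 ≤ min (W * ‖1 - z‖) 2 := by positivity
    have h2 : min (W * ‖1 - z‖) 2 ≤ 2 := min_le_right _ _
    have hqd : 36 ≤ ((q:ℝ)+1) * ‖1-z‖^2 := by
      have h3 : (36:ℝ) * W^2 * c^2 ≤ q + 1 := by exact_mod_cast hqW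
      have h4 : 1 ≤ (W * ‖1-z‖ * c)^2 := by
        apply one_le_pow₀ h.le
      calc (36:ℝ) ≤ 36 * (W * ‖1-z‖ * c)^2 := by linarith
        _ = (36 * W^2 * c^2) * ‖1-z‖^2 := by ring
        _ ≤ _ := by gcongr
    have hch := char_bound hq z hz hqd F
    have hsmall : 64 * ((n+1:ℕ):ℝ) * ‖∑ A ∈ F, ∑ B ∈ F, z^(#(A ∩ B))‖ ≤ (#F:ℝ)^2 := by
      by_contra hcon
      push Not at hcon
      have h5 : ((#F:ℝ)^2)^(q+1) < (64 * ((n+1:ℕ):ℝ) * ‖∑ A ∈ F, ∑ B ∈ F, z^(#(A ∩ B))‖)^(q+1) :=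
        pow_lt_pow_left₀ hcon (by positivity) (by omega)
      rw [mul_pow (64 * ((n+1:ℕ):ℝ))] at h5
      have h6 : ((#F:ℝ)^2)^(q+1) < (64 * ((n+1:ℕ):ℝ))^(q+1) * ((39/10)^n * (#F:ℝ)^(2*q)) := by
        refine lt_of_lt_of_le h5 ?_
        gcongr
      have h7 : ((1.98:ℝ)^2)^n ≤ (#F:ℝ)^2 := by
        rw [← pow_mul, mul_comm, pow_mul]
        gcongr
      have h8 : (64 * ((n+1:ℕ):ℝ))^(q+1) * ((39/10)^n * (#F:ℝ)^(2*q))
          ≤ (#F:ℝ)^2 * (#F:ℝ)^(2*q) := by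
        rw [← mul_assoc]
        gcongr
        exact hbig.trans h7
      have h9 : (#F:ℝ)^2 * (#F:ℝ)^(2*q) = ((#F:ℝ)^2)^(q+1) := by
        rw [← pow_mul, ← pow_add]; congr 1; ring
      linarith
    calc (min (W * ‖1 - z‖) 2)^3 * ‖∑ A ∈ F, ∑ B ∈ F, z^(#(A ∩ B))‖
        ≤ 2^3 * ‖∑ A ∈ F, ∑ B ∈ F, z^(#(A ∩ B))‖ := by gcongr
      _ ≤ (#F:ℝ)^2 / (8 * ((n+1:ℕ):ℝ)) := by
          rw [le_div_iff₀ (by positivity)]
          linarith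

/-- Polynomials are eventually dominated. -/
lemma ev_poly (E : ℕ) : ∃ m0 : ℕ, ∀ m : ℕ, m0 ≤ m → (64 * (m+1)^12)^E ≤ 2^m := by
  have h := tendsto_pow_const_div_const_pow_of_one_lt (18*E) (r := (2:ℝ)) (by norm_num)
  have h2 : ∀ᶠ n : ℕ in atTop, (n:ℝ)^(18*E) / 2^n < 1/2 :=
    h.eventually (gt_mem_nhds (by norm_num))
  obtain ⟨n0, hn0⟩ := eventually_atTop.1 h2
  refine ⟨n0 + 1, fun m hm => ?_⟩
  have h3 := hn0 (m+1) (by omega)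
  rw [div_lt_iff₀ (by positivity)] at h3
  have h4 : ((m+1:ℕ):ℝ)^(18*E) < 2^m := by
    rw [pow_succ] at h3
    linarith
  have h5 : (m+1)^(18*E) < 2^m := by exact_mod_cast h4
  have h6 : 64 * (m+1)^12 ≤ (m+1)^18 := by
    have : 64 ≤ (m+1)^6 := by
      calc 64 = 2^6 := by norm_num
        _ ≤ (m+1)^6 := Nat.pow_le_pow_left (by omega) 6
    calc 64 * (m+1)^12 ≤ (m+1)^6 * (m+1)^12 := Nat.mul_le_mul_right _ this
      _ = (m+1)^18 := by ring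
  calc (64 * (m+1)^12)^E ≤ ((m+1)^18)^E := Nat.pow_le_pow_left h6 E
    _ = (m+1)^(18*E) := by rw [← pow_mul]
    _ ≤ 2^m := h5.le

lemma ex_root (n : ℕ) : ∃ m : ℕ, m^12 ≤ n ∧ n < (m+1)^12 := by
  refine ⟨Nat.findGreatest (fun m => m^12 ≤ n) n, ?_, ?_⟩
  · exact Nat.findGreatest_spec (P := fun m => m^12 ≤ n) (Nat.zero_le n) (by simp)
  · by_contra h
    push Not at h
    set g := Nat.findGreatest (fun m => m^12 ≤ n) n with hg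
    have h1 : g + 1 ≤ n := by
      calc g + 1 ≤ (g+1)^12 := Nat.le_self_pow (by norm_num) _
        _ ≤ n := h
    exact Nat.findGreatest_is_greatest (P := fun m => m^12 ≤ n) (n := n) (k := g+1)
      (by omega) h1 h

theorem weak_sunflower (k : ℕ) (hk : 3 ≤ k) : ∃ N : ℕ, ∀ n : ℕ, N ≤ n →
      ∀ F : Finset (Finset (Fin n)), (1.99 : ℝ) ^ n ≤ (F.card : ℝ) →
        ∃ S : Finset (Finset (Fin n)), S ⊆ F ∧ S.card = k ∧
          ∃ m : ℕ, ∀ A ∈ S, ∀ B ∈ S, A ≠ B → (A ∩ B).card = m := by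
  obtain ⟨m0, hm0⟩ := ev_poly (8 * k * 138)
  obtain ⟨M, hM⟩ : ∃ M, M = max m0 (112896 * 256 * 138) := ⟨_, rfl⟩
  refine ⟨M^12, fun n hn F hF => ?_⟩
  obtain ⟨m, hmn, hmn'⟩ := ex_root n
  have hmM : M ≤ m := by
    by_contra h
    push Not at h
    have : (m+1)^12 ≤ M^12 := Nat.pow_le_pow_left (by omega) 12
    omega
  have hmm0 : m0 ≤ m := (le_max_left _ _).trans (hM ▸ hmM)
  have hmbig : 112896 * 256 * 138 ≤ m := (le_max_right _ _).trans (hM ▸ hmM)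
  have hD := hm0 m hmm0
  obtain ⟨D, hDdef⟩ : ∃ D, D = 64 * (m+1)^12 := ⟨_, rfl⟩
  rw [← hDdef] at hD
  have hm1 : 0 < m := by omega
  -- basic facts
  have hD1 : 1 ≤ D := by
    have : 0 < (m+1)^12 := by positivity
    omega
  have hnD : 64 * (n+1) ≤ D := by omega
  have hmle : m ≤ n := le_trans (Nat.le_self_pow (by norm_num) m) hmn
  have hDm : D ≤ 2^m := by
    calc D ≤ D^(8*k*138) := Nat.le_self_pow (by positivity) D
      _ ≤ 2^m := hD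
  have hD2 : D^2 ≤ 2^m := by
    calc D^2 ≤ D^(8*k*138) := Nat.pow_le_pow_right hD1 (by nlinarith)
      _ ≤ 2^m := hD
  -- parameters
  obtain ⟨W, hWdef⟩ : ∃ W, W = 28 * m := ⟨_, rfl⟩
  obtain ⟨c, hcdef⟩ : ∃ c, c = 2 * (m+1)^4 := ⟨_, rfl⟩
  have hW0 : 0 < W := by omega
  have hc0 : 0 < c := by rw [hcdef]; positivity
  obtain ⟨q, hq1⟩ : ∃ q, q + 1 = 36 * W^2 * c^2 := by
    have : 0 < 36 * W^2 * c^2 := by positivity
    exact ⟨36 * W^2 * c^2 - 1, by omega⟩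
  have hq1' : q + 1 = 112896 * (m^2 * (m+1)^8) := by
    rw [hq1, hWdef, hcdef]; ring
  have hq2 : 2 ≤ q := by
    have : 0 < m^2 * (m+1)^8 := by positivity
    omega
  have hcn : 8 * (n+1) ≤ c^3 := by
    have : c^3 = 8 * (m+1)^12 := by rw [hcdef]; ring
    omega
  have hqm : m * (q+1) * 138 ≤ m^12 := by
    have h1 : (m+1)^8 ≤ 256 * m^8 := by
      calc (m+1)^8 ≤ (2*m)^8 := Nat.pow_le_pow_left (by omega) 8
        _ = 256 * m^8 := by ring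
    calc m * (q+1) * 138 = 112896 * 138 * (m^3 * (m+1)^8) := by rw [hq1']; ring
      _ ≤ 112896 * 138 * (m^3 * (256 * m^8)) := by gcongr
      _ = (112896 * 256 * 138) * m^11 := by ring
      _ ≤ m * m^11 := Nat.mul_le_mul_right _ hmbig
      _ = m^12 := by ring
  have hDR : ((64 * ((n+1 : ℕ):ℝ))) ≤ (D:ℝ) := by exact_mod_cast hnD
  have hbig : (64 * ((n+1 : ℕ):ℝ))^(q+1) * (39/10)^n ≤ ((1.98:ℝ)^2)^n := by
    have h1 : D^((q+1)*138) ≤ 2^n := by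
      calc D^((q+1)*138) ≤ (2^m)^((q+1)*138) := Nat.pow_le_pow_left hDm _
        _ = 2^(m * (q+1) * 138) := by rw [← pow_mul]; congr 1; ring
        _ ≤ 2^n := Nat.pow_le_pow_right (by norm_num) (hqm.trans hmn)
    have h1' : ((D:ℝ)^(q+1))^138 ≤ 2^n := by
      rw [← pow_mul]; exact_mod_cast h1
    have h2 : (2:ℝ) ≤ ((1.98:ℝ)^2 / (39/10))^138 := by norm_num
    have h3 : ((D:ℝ)^(q+1))^138 ≤ (((1.98:ℝ)^2 / (39/10))^n)^138 := by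
      calc ((D:ℝ)^(q+1))^138 ≤ 2^n := h1'
        _ ≤ (((1.98:ℝ)^2 / (39/10))^138)^n := by gcongr
        _ = _ := by rw [← pow_mul, ← pow_mul, mul_comm]
    have h4 : (D:ℝ)^(q+1) ≤ ((1.98:ℝ)^2 / (39/10))^n :=
      le_of_pow_le_pow_left₀ (by norm_num) (by positivity) h3
    calc (64 * ((n+1 : ℕ):ℝ))^(q+1) * (39/10)^n
        ≤ (D:ℝ)^(q+1) * (39/10)^n := by gcongr
      _ ≤ ((1.98:ℝ)^2 / (39/10))^n * (39/10)^n := by gcongr
      _ = ((1.98:ℝ)^2)^n := by rw [← mul_pow]; congr 1; norm_num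
  -- the chain
  obtain ⟨K, hKdef⟩ : ∃ K, K = (k-2) * (n/m+1) + 1 := ⟨_, rfl⟩
  have hnm : 1 ≤ n / m := (Nat.one_le_div_iff hm1).2 hmle
  have hK : K ≤ 8 * k * (n/m) := by
    rw [hKdef]
    have h1 : (k-2) * (n/m+1) ≤ k * (2 * (n/m)) := by
      apply Nat.mul_le_mul
      · omega
      · omega
    have h2 : 1 ≤ k * (n/m) := by
      calc 1 = 1 * 1 := by norm_num
        _ ≤ k * (n/m) := Nat.mul_le_mul (by omega) hnm
    nlinarith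
  have h4D : (4 * ((n+1 : ℕ):ℝ)) ≤ (D:ℝ) := by
    refine le_trans ?_ hDR
    have : (0:ℝ) ≤ ((n+1:ℕ):ℝ) := by positivity
    linarith
  have hKpow : (4 * ((n+1 : ℕ):ℝ))^K * (1.98:ℝ)^n ≤ (1.99:ℝ)^n := by
    have h1 : D^(K*138) ≤ 2^n := by
      calc D^(K*138) ≤ D^(8 * k * (n/m) * 138) :=
            Nat.pow_le_pow_right hD1 (Nat.mul_le_mul_right _ hK)
        _ = (D^(8*k*138))^(n/m) := by rw [← pow_mul]; congr 1; ring
        _ ≤ (2^m)^(n/m) := Nat.pow_le_pow_left hD _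
        _ = 2^(m * (n/m)) := by rw [← pow_mul]
        _ ≤ 2^n := Nat.pow_le_pow_right (by norm_num) (Nat.mul_div_le n m)
    have h1' : ((D:ℝ)^K)^138 ≤ 2^n := by
      rw [← pow_mul]; exact_mod_cast h1
    have h2 : (2:ℝ) ≤ ((1.99:ℝ) / 1.98)^138 := by norm_num
    have h3 : ((D:ℝ)^K)^138 ≤ (((1.99:ℝ) / 1.98)^n)^138 := by
      calc ((D:ℝ)^K)^138 ≤ 2^n := h1'
        _ ≤ (((1.99:ℝ) / 1.98)^138)^n := by gcongr
        _ = _ := by rw [← pow_mul, ← pow_mul, mul_comm]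
    have h4 : (D:ℝ)^K ≤ ((1.99:ℝ) / 1.98)^n :=
      le_of_pow_le_pow_left₀ (by norm_num) (by positivity) h3
    calc (4 * ((n+1 : ℕ):ℝ))^K * (1.98:ℝ)^n
        ≤ (D:ℝ)^K * (1.98:ℝ)^n := by gcongr
      _ ≤ ((1.99:ℝ) / 1.98)^n * (1.98:ℝ)^n := by gcongr
      _ = (1.99:ℝ)^n := by rw [← mul_pow]; congr 1; norm_num
  have hL : 4 * ((n+1 : ℕ):ℝ) ≤ (1.98:ℝ)^n := by
    have h1 : (D:ℝ)^2 ≤ ((1.98:ℝ)^n)^2 := by
      calc (D:ℝ)^2 ≤ 2^m := by exact_mod_cast hD2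
        _ ≤ 2^n := by gcongr; norm_num
        _ ≤ ((1.98:ℝ)^2)^n := by gcongr; norm_num
        _ = _ := by rw [← pow_mul, ← pow_mul, mul_comm]
    have h2 : (D:ℝ) ≤ (1.98:ℝ)^n := le_of_pow_le_pow_left₀ (by norm_num) (by positivity) h1
    exact h4D.trans h2
  refine chain (s := m) (K := K) (L := (1.98:ℝ)^n) hm1 (by omega) hL ?_ F (hKpow.trans hF) (by omega)
  intro F' hF'
  exact flat (W := W) (s := m) (by omega) (by omega) F'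
    (smooth hq2 hW0 hc0 hcn hq1.ge hbig F' hF')

end Pool.Agent.W213.WS
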