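import Pool.Agent.W213.WS.Flat

set_option autoImplicit false

namespace Pool.Agent.W213.WS

open Finset

/-- A member with many partners at a prescribed multiple of `s`. -/
lemma step {n s : ℕ} (hs : 0 < s) (F : Finset (Finset (Fin n))) (hF : F.Nonempty)
    (hflat : ∃ r : ZMod (n+1), ∀ t : ℕ, t ≤ s →
      (#F:ℝ)^2 ≤ 2 * ((n+1 : ℕ) : ℝ) * P (n+1) F (r + t)) :
    ∃ i ∈ range (n/s+1), ∃ A ∈ F,
      (#F:ℝ) ≤ 2 * ((n+1 : ℕ) : ℝ) * #(F.filter fun B => #(A ∩ B) = s * i) := by
  obtain ⟨r, hr⟩ := hflat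
  have hval : r.val < n+1 := ZMod.val_lt r
  have hrv : ((r.val : ℕ) : ZMod (n+1)) = r := ZMod.natCast_zmod_val r
  -- choose the grid point
  have hgrid : ∃ i ∈ range (n/s+1), s * i ≤ n ∧ ∃ t ≤ s, r + (t : ZMod (n+1)) = ((s * i : ℕ) : ZMod (n+1)) := by
    set i := (r.val + s - 1) / s with hi
    have h1 : r.val ≤ s * i := by
      have := Nat.div_add_mod (r.val + s - 1) s
      have h2 := Nat.mod_lt (r.val + s - 1) hs
      rw [← hi] at this
      omega
    have h2 : s * i ≤ r.val + s - 1 := Nat.mul_div_le _ _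
    rcases le_or_gt (s * i) n with h | h
    · refine ⟨i, ?_, h, s * i - r.val, by omega, ?_⟩
      · rw [mem_range, Nat.lt_succ_iff, Nat.le_div_iff_mul_le hs, mul_comm]; exact h
      · rw [Nat.cast_sub h1, hrv]; ring
    · refine ⟨0, by simp, by simp, (n + 1) - r.val, by omega, ?_⟩
      rw [Nat.cast_sub hval.le, hrv]
      simp
  obtain ⟨i, hi, hin, t, hts, ht⟩ := hgrid
  refine ⟨i, hi, ?_⟩
  have h := hr t hts
  rw [ht] at h
  have hP : P (n+1) F ((s * i : ℕ) : ZMod (n+1)) = ∑ A ∈ F, (#(F.filter fun B => #(A ∩ B) = s * i) : ℝ) := by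
    unfold P
    refine sum_congr rfl fun A _ => ?_
    rw [card_filter]
    push_cast
    refine sum_congr rfl fun B _ => ?_
    have hc : #(A ∩ B) < n + 1 := by
      have := card_le_univ (A ∩ B)
      rw [Fintype.card_fin] at this
      omega
    have : (((#(A ∩ B) : ℕ) : ZMod (n+1)) = (s:ZMod (n+1)) * i) ↔ #(A ∩ B) = s * i := by
      constructor
      · intro h
        have h' : ((#(A ∩ B) : ℕ) : ZMod (n+1)) = ((s * i : ℕ) : ZMod (n+1)) := by
          rw [h]; push_cast; ring
        have h2 := congrArg ZMod.val h'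
        rwa [ZMod.val_natCast_of_lt hc, ZMod.val_natCast_of_lt (by omega)] at h2
      · intro h; rw [h]; push_cast; ring
    by_cases hc2 : #(A ∩ B) = s * i
    · rw [if_pos (this.2 hc2), if_pos hc2]
    · rw [if_neg (fun h => hc2 (this.1 h)), if_neg hc2]
  rw [hP] at h
  by_contra hcon
  push Not at hcon
  have h3 : ∑ A ∈ F, 2 * ((n+1 : ℕ) : ℝ) * (#(F.filter fun B => #(A ∩ B) = s * i) : ℝ)
      < ∑ A ∈ F, (#F : ℝ) := sum_lt_sum_of_nonempty hF hcon
  rw [← mul_sum, sum_const, nsmul_eq_mul] at h3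
  nlinarith

theorem chain {n s K k : ℕ} {L : ℝ} (hs : 0 < s) (hk : 2 ≤ k)
    (hL : 4 * ((n+1 : ℕ) : ℝ) ≤ L)
    (hflat : ∀ F : Finset (Finset (Fin n)), L ≤ #F → ∃ r : ZMod (n+1), ∀ t : ℕ, t ≤ s →
      (#F:ℝ)^2 ≤ 2 * ((n+1 : ℕ) : ℝ) * P (n+1) F (r + t))
    (F0 : Finset (Finset (Fin n))) (hF0 : (4 * ((n+1 : ℕ) : ℝ))^K * L ≤ #F0)
    (hcount : (k-2) * (n/s+1) < K) :
    ∃ S : Finset (Finset (Fin n)), S ⊆ F0 ∧ #S = k ∧
      ∃ m : ℕ, ∀ A ∈ S, ∀ B ∈ S, A ≠ B → #(A ∩ B) = m := by
  have hn1 : (1:ℝ) ≤ ((n+1 : ℕ) : ℝ) := by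
    have : 1 ≤ n + 1 := by omega
    exact_mod_cast this
  set q4 : ℝ := 4 * ((n+1 : ℕ) : ℝ) with hq4
  have hq41 : 1 ≤ q4 := by linarith
  have hL0 : 0 < L := by linarith
  have main : ∀ j ≤ K, ∃ (S : ℕ → Finset (Finset (Fin n))) (F' : Finset (Finset (Fin n))),
      F' ⊆ F0 ∧ (∀ i, S i ⊆ F0 ∧ (∀ A ∈ S i, ∀ B ∈ S i, A ≠ B → #(A ∩ B) = s * i) ∧
        (∀ A ∈ S i, ∀ B ∈ F', A ≠ B ∧ #(A ∩ B) = s * i)) ∧
      ∑ i ∈ range (n/s+1), #(S i) = j ∧ (#F0 : ℝ) ≤ q4^j * #F' := by
    intro j
    induction j with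
    | zero =>
      intro _
      exact ⟨fun _ => ∅, F0, Subset.refl _, by simp, by simp, by simp⟩
    | succ j ih =>
      intro hj
      obtain ⟨S, F', hsub, hS, hsum, hcard⟩ := ih (by omega)
      have hLF : L ≤ #F' := by
        have h1 : q4^j * L ≤ q4^K * L := by
          gcongr
          · exact (by omega : j ≤ K)
        have h2 : q4^j * L ≤ q4^j * #F' := (h1.trans hF0).trans hcard
        exact le_of_mul_le_mul_left h2 (by positivity)
      have hne : F'.Nonempty := by
        rw [← card_pos]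
        have : (0:ℝ) < #F' := by linarith
        exact_mod_cast this
      obtain ⟨i, hi, A, hA, hAc⟩ := step hs F' hne (hflat F' hLF)
      set F'' := (F'.filter fun B => #(A ∩ B) = s * i).erase A with hF''
      have hAS : A ∉ S i := by
        intro h
        exact ((hS i).2.2 A h A hA).1 rfl
      refine ⟨Function.update S i (insert A (S i)), F'', ?_, ?_, ?_, ?_⟩
      · intro B hB
        exact hsub (mem_filter.1 (mem_of_mem_erase hB)).1
      · intro i'
        by_cases hii : i' = i
        · subst hii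
          rw [Function.update_self]
          refine ⟨?_, ?_, ?_⟩
          · intro B hB
            rcases mem_insert.1 hB with rfl | h
            · exact hsub hA
            · exact (hS i').1 h
          · intro B hB C hC hBC
            rcases mem_insert.1 hB with rfl | h
            · rcases mem_insert.1 hC with rfl | h'
              · exact absurd rfl hBC
              · rw [inter_comm]
                exact ((hS i').2.2 C h' B hA).2
            · rcases mem_insert.1 hC with rfl | h'
              · exact ((hS i').2.2 B h C hA).2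
              · exact (hS i').2.1 B h C h' hBC
          · intro B hB C hC
            have hC' := mem_erase.1 hC
            have hC'' := mem_filter.1 hC'.2
            rcases mem_insert.1 hB with rfl | h
            · exact ⟨fun h => hC'.1 h.symm, hC''.2⟩
            · exact (hS i').2.2 B h C hC''.1
        · rw [Function.update_of_ne hii]
          refine ⟨(hS i').1, (hS i').2.1, ?_⟩
          intro B hB C hC
          have hC' := mem_erase.1 hC
          have hC'' := mem_filter.1 hC'.2
          exact (hS i').2.2 B hB C hC''.1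
      · have : ∀ i', #(Function.update S i (insert A (S i)) i') = #(S i') + if i' = i then 1 else 0 := by
          intro i'
          by_cases hii : i' = i
          · subst hii
            rw [Function.update_self, card_insert_of_notMem hAS, if_pos rfl]
          · rw [Function.update_of_ne hii, if_neg hii]; rfl
        simp only [this]
        rw [sum_add_distrib, hsum, sum_ite_eq', if_pos hi]
      · have h1 : (#(F'.filter fun B => #(A ∩ B) = s * i) : ℝ) ≤ #F'' + 1 := by
          have h5 : #(F'.filter fun B => #(A ∩ B) = s * i) - 1 ≤ #F'' := pred_card_le_card_erase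
          have h2 : #(F'.filter fun B => #(A ∩ B) = s * i) ≤ #F'' + 1 := by omega
          exact_mod_cast h2
        have h2 : (#F':ℝ) ≤ q4 * #F'' := by
          have h3 : q4 ≤ #F' := hL.trans hLF
          have h4 : 2 * ((n+1 : ℕ) : ℝ) * #(F'.filter fun B => #(A ∩ B) = s * i)
              ≤ 2 * ((n+1 : ℕ) : ℝ) * (#F'' + 1) := by gcongr
          nlinarith
        calc (#F0 : ℝ) ≤ q4^j * #F' := hcard
          _ ≤ q4^j * (q4 * #F'') := by gcongr
          _ = q4^(j+1) * #F'' := by ring
  obtain ⟨S, F', hsub, hS, hsum, hcard⟩ := main K le_rfl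
  have hF'pos : F'.Nonempty := by
    rw [← card_pos]
    by_contra h
    have h0 : #F' = 0 := by omega
    rw [h0] at hcard
    have : 0 < q4^K * L := by positivity
    simp at hcard
    rw [hcard] at hF0
    simp at hF0
    linarith
  obtain ⟨B0, hB0⟩ := hF'pos
  have hex : ∃ i ∈ range (n/s+1), k - 2 < #(S i) := by
    by_contra hcon
    push Not at hcon
    have := sum_le_sum hcon
    rw [hsum, sum_const, card_range, smul_eq_mul] at this
    have h2 : (n/s+1) * (k-2) = (k-2)*(n/s+1) := mul_comm _ _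
    omega
  obtain ⟨i, _, hi⟩ := hex
  have hB0S : B0 ∉ S i := fun h => ((hS i).2.2 B0 h B0 hB0).1 rfl
  have hcardT : k ≤ #(insert B0 (S i)) := by
    rw [card_insert_of_notMem hB0S]; omega
  obtain ⟨T, hT, hTk⟩ := exists_subset_card_eq hcardT
  refine ⟨T, ?_, hTk, s * i, ?_⟩
  · intro A hA
    rcases mem_insert.1 (hT hA) with rfl | h
    · exact hsub hB0
    · exact (hS i).1 h
  · intro A hA B hB hAB
    rcases mem_insert.1 (hT hA) with rfl | h
    · rcases mem_insert.1 (hT hB) with rfl | h'
      · exact absurd rfl hAB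
      · rw [inter_comm]; exact ((hS i).2.2 B h' A hB0).2
    · rcases mem_insert.1 (hT hB) with rfl | h'
      · exact ((hS i).2.2 A h B hB0).2
      · exact (hS i).2.1 A h B h' hAB

end Pool.Agent.W213.WS
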