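import Pool.Agent.W213.WS.Tensor

set_option autoImplicit false

namespace Pool.Agent.W213.WS

open Finset

set_option linter.unusedSectionVars false

variable {Q : ℕ} [NeZero Q]

/-- Forward averaging over a window of length `W`. -/
noncomputable def U (W : ℕ) (g : ZMod Q → ℝ) (r : ZMod Q) : ℝ := (∑ i ∈ range W, g (r + i)) / W

lemma U_bounds {W : ℕ} (hW : 0 < W) {g : ZMod Q → ℝ} {M : ℝ} (h0 : ∀ r, 0 ≤ g r)
    (h1 : ∀ r, g r ≤ M) (r : ZMod Q) : 0 ≤ U W g r ∧ U W g r ≤ M := by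
  have hW' : (0:ℝ) < W := by exact_mod_cast hW
  constructor
  · unfold U
    exact div_nonneg (sum_nonneg fun i _ => h0 _) hW'.le
  · unfold U
    rw [div_le_iff₀ hW']
    calc ∑ i ∈ range W, g (r + i) ≤ ∑ i ∈ range W, M := sum_le_sum fun i _ => h1 _
      _ = M * W := by simp [mul_comm]

lemma U_step {W : ℕ} {g : ZMod Q → ℝ} (r : ZMod Q) :
    U W g (r + 1) - U W g r = (g (r + W) - g r) / W := by
  unfold U
  rw [← sub_div]
  congr 1
  have h1 : ∑ i ∈ range (W+1), g (r + (i:ℕ)) = ∑ i ∈ range W, g (r + 1 + (i:ℕ)) + g r := by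
    rw [sum_range_succ']
    simp only [Nat.cast_add, Nat.cast_one, Nat.cast_zero, add_zero]
    congr 1
    apply sum_congr rfl
    intro i _
    congr 1
    ring
  have h2 := sum_range_succ (fun i : ℕ => g (r + (i:ℕ))) W
  linarith

lemma U_shift {W : ℕ} (hW : 0 < W) {g : ZMod Q → ℝ} {M : ℝ} (h0 : ∀ r, 0 ≤ g r)
    (h1 : ∀ r, g r ≤ M) (r : ZMod Q) (t : ℕ) :
    |U W g (r + t) - U W g r| ≤ t * (M / W) := by
  have hW' : (0:ℝ) < W := by exact_mod_cast hW
  induction t with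
  | zero => simp
  | succ t ih =>
    have h := U_step (W := W) (g := g) (r + t)
    have h2 : |U W g (r + t + 1) - U W g (r + t)| ≤ M / W := by
      rw [h, abs_div, abs_of_pos hW']
      gcongr
      rw [abs_le]
      have a1 := h0 (r + t + W)
      have a2 := h1 (r + t + W)
      have a3 := h0 (r + t)
      have a4 := h1 (r + t)
      constructor <;> linarith
    have e : (r + ((t+1 : ℕ) : ZMod Q)) = r + t + 1 := by push_cast; ring
    rw [e]
    have : U W g (r + t + 1) - U W g r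
        = (U W g (r + t + 1) - U W g (r + t)) + (U W g (r + t) - U W g r) := by ring
    rw [this]
    refine (abs_add_le _ _).trans ?_
    push_cast
    linarith

/-- Fourier synthesis on `ZMod Q`. -/
noncomputable def Syn (c : ZMod Q → ℂ) (r : ZMod Q) : ℂ := ∑ j, c j * ZMod.stdAddChar (j * r)

/-- The multiplier of the averaging operator. -/
noncomputable def um (W : ℕ) (j : ZMod Q) : ℂ := (∑ i ∈ range W, (ZMod.stdAddChar j) ^ i) / W

lemma char_mul_nat (j : ZMod Q) (i : ℕ) :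
    (ZMod.stdAddChar (j * (i : ZMod Q)) : ℂ) = (ZMod.stdAddChar j) ^ i := by
  rw [← AddChar.map_nsmul_eq_pow, nsmul_eq_mul, mul_comm]

lemma U_syn {W : ℕ} {g : ZMod Q → ℝ} {c : ZMod Q → ℂ} (h : ∀ r, (g r : ℂ) = Syn c r)
    (r : ZMod Q) : (U W g r : ℂ) = Syn (fun j => um W j * c j) r := by
  unfold U Syn um
  push_cast
  simp only [h]
  unfold Syn
  rw [sum_comm, sum_div]
  apply sum_congr rfl
  intro j _
  rw [sum_div, sum_div, sum_mul, sum_mul]
  apply sum_congr rfl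
  intro i _
  rw [mul_add, AddChar.map_add_eq_mul, char_mul_nat]
  ring

lemma um_bound {W : ℕ} (hW : 0 < W) (j : ZMod Q) :
    ‖1 - um W j‖ ≤ W * ‖1 - (ZMod.stdAddChar j : ℂ)‖ ∧ ‖1 - um W j‖ ≤ 2 := by
  have hW' : (0:ℝ) < W := by exact_mod_cast hW
  have hWc : (W:ℂ) ≠ 0 := by exact_mod_cast hW.ne'
  have hn : ‖(ZMod.stdAddChar j : ℂ)‖ = 1 := AddChar.norm_apply _ _
  set z : ℂ := ZMod.stdAddChar j
  have hpow : ∀ i : ℕ, ‖1 - z^i‖ ≤ i * ‖1 - z‖ := by
    intro i
    induction i with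
    | zero => simp
    | succ i ih =>
      have : 1 - z^(i+1) = (1 - z^i) + z^i * (1 - z) := by ring
      rw [this]
      refine (norm_add_le _ _).trans ?_
      rw [norm_mul, norm_pow, hn, one_pow, one_mul]
      push_cast
      linarith
  have e : 1 - um W j = (∑ i ∈ range W, (1 - z^i)) / W := by
    unfold um
    rw [sum_sub_distrib, sub_div]
    simp [hWc, z]
  constructor
  · rw [e, norm_div, Complex.norm_natCast, div_le_iff₀ hW']
    refine (norm_sum_le _ _).trans ?_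
    calc ∑ i ∈ range W, ‖1 - z^i‖ ≤ ∑ i ∈ range W, (W * ‖1 - z‖) := by
          apply sum_le_sum
          intro i hi
          refine (hpow i).trans ?_
          gcongr
          exact (mem_range.1 hi).le
      _ = W * ‖1 - z‖ * W := by simp; ring
  · rw [e, norm_div, Complex.norm_natCast, div_le_iff₀ hW']
    refine (norm_sum_le _ _).trans ?_
    calc ∑ i ∈ range W, ‖1 - z^i‖ ≤ ∑ i ∈ range W, (2:ℝ) := by
          apply sum_le_sum
          intro i hi
          refine (norm_sub_le _ _).trans ?_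
          rw [norm_pow, hn, one_pow, norm_one]; norm_num
      _ = 2 * W := by simp; ring

/-- Number of pairs with a given residue of the intersection size. -/
noncomputable def P {n : ℕ} (Q : ℕ) (F : Finset (Finset (Fin n))) (r : ZMod Q) : ℝ :=
  ∑ A ∈ F, ∑ B ∈ F, if ((#(A ∩ B) : ℕ) : ZMod Q) = r then (1:ℝ) else 0

lemma P_nonneg {n : ℕ} (F : Finset (Finset (Fin n))) (r : ZMod Q) : 0 ≤ P Q F r := by
  unfold P
  exact sum_nonneg fun _ _ => sum_nonneg fun _ _ => by split_ifs <;> norm_num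

lemma P_sum {n : ℕ} (F : Finset (Finset (Fin n))) : ∑ r : ZMod Q, P Q F r = (#F:ℝ)^2 := by
  unfold P
  rw [sum_comm]
  have : ∀ A ∈ F, ∑ r : ZMod Q, ∑ B ∈ F,
      (if ((#(A ∩ B) : ℕ) : ZMod Q) = r then (1:ℝ) else 0) = #F := by
    intro A _
    rw [sum_comm]
    simp
  rw [sum_congr rfl this]
  simp; ring

lemma P_syn {n : ℕ} (F : Finset (Finset (Fin n))) (r : ZMod Q) :
    (P Q F r : ℂ) = Syn (fun j => (∑ A ∈ F, ∑ B ∈ F, (ZMod.stdAddChar (-j) : ℂ)^(#(A ∩ B))) / Q) r := by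
  unfold P Syn
  have hQ : (Q:ℂ) ≠ 0 := by exact_mod_cast NeZero.ne Q
  have key : ∀ m : ℕ, (if ((m : ℕ) : ZMod Q) = r then (1:ℂ) else 0)
      = ∑ j : ZMod Q, ((ZMod.stdAddChar (-j) : ℂ)^m / Q) * ZMod.stdAddChar (j * r) := by
    intro m
    have h1 : ∀ j : ZMod Q, ((ZMod.stdAddChar (-j) : ℂ)^m / Q) * ZMod.stdAddChar (j * r)
        = (ZMod.stdAddChar (j * (r - (m : ZMod Q))) : ℂ) / Q := by
      intro j
      rw [← char_mul_nat, div_mul_eq_mul_div, ← AddChar.map_add_eq_mul]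
      congr 2
      ring
    simp only [h1]
    rw [← sum_div, AddChar.sum_mulShift _ (ZMod.isPrimitive_stdAddChar Q)]
    simp only [sub_eq_zero, ZMod.card]
    split_ifs with h2 h3 h3
    · field_simp
    · exact absurd h2.symm h3
    · exact absurd h3.symm h2
    · simp
  calc ((∑ A ∈ F, ∑ B ∈ F, if ((#(A ∩ B) : ℕ) : ZMod Q) = r then (1:ℝ) else 0 : ℝ) : ℂ)
      = ∑ A ∈ F, ∑ B ∈ F, ∑ j : ZMod Q,
          ((ZMod.stdAddChar (-j) : ℂ)^(#(A ∩ B)) / Q) * ZMod.stdAddChar (j * r) := by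
        push_cast
        refine sum_congr rfl fun A _ => sum_congr rfl fun B _ => ?_
        rw [← key]
        split_ifs <;> simp
    _ = ∑ A ∈ F, ∑ j : ZMod Q, ∑ B ∈ F,
          ((ZMod.stdAddChar (-j) : ℂ)^(#(A ∩ B)) / Q) * ZMod.stdAddChar (j * r) :=
        sum_congr rfl fun A _ => sum_comm
    _ = ∑ j : ZMod Q, ∑ A ∈ F, ∑ B ∈ F,
          ((ZMod.stdAddChar (-j) : ℂ)^(#(A ∩ B)) / Q) * ZMod.stdAddChar (j * r) := sum_comm
    _ = _ := by
        refine sum_congr rfl fun j _ => ?_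
        simp only
        rw [sum_div, sum_mul]
        refine sum_congr rfl fun A _ => ?_
        rw [sum_div, sum_mul]

/-- Third-order smoothness of the distribution. -/
lemma err_bound {n W : ℕ} (hW : 0 < W) (F : Finset (Finset (Fin n))) {E : ℝ}
    (hE : ∀ z : ℂ, ‖z‖ = 1 →
      (min (W * ‖1 - z‖) 2)^3 * ‖∑ A ∈ F, ∑ B ∈ F, z^(#(A ∩ B))‖ ≤ E) (r : ZMod Q) :
    |P Q F r - 3 * U W (P Q F) r + 3 * U W (U W (P Q F)) r - U W (U W (U W (P Q F))) r| ≤ E := by
  set c : ZMod Q → ℂ := fun j => (∑ A ∈ F, ∑ B ∈ F, (ZMod.stdAddChar (-j) : ℂ)^(#(A ∩ B))) / Q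
    with hc
  have h0 : ∀ r, (P Q F r : ℂ) = Syn c r := P_syn F
  have h1 := U_syn (W := W) h0
  have h2 := U_syn (W := W) h1
  have h3 := U_syn (W := W) h2
  have hQ : (0:ℝ) < Q := by exact_mod_cast Nat.pos_of_ne_zero (NeZero.ne Q)
  have hrep : ((P Q F r - 3 * U W (P Q F) r + 3 * U W (U W (P Q F)) r
      - U W (U W (U W (P Q F))) r : ℝ) : ℂ) = Syn (fun j => (1 - um W j)^3 * c j) r := by
    push_cast
    rw [h0, h1, h2, h3]
    unfold Syn
    rw [mul_sum, mul_sum, ← sum_sub_distrib, ← sum_add_distrib, ← sum_sub_distrib]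
    refine sum_congr rfl fun j _ => ?_
    ring
  have hnorm : ∀ j : ZMod Q, ‖(1 - um W j)^3 * c j * ZMod.stdAddChar (j * r)‖ ≤ E / Q := by
    intro j
    rw [norm_mul, norm_mul, norm_pow, AddChar.norm_apply, mul_one, hc]
    simp only
    rw [norm_div, Complex.norm_natCast, ← mul_div_assoc]
    gcongr
    have hz : ‖(ZMod.stdAddChar (-j) : ℂ)‖ = 1 := AddChar.norm_apply _ _
    refine le_trans ?_ (hE _ hz)
    gcongr
    obtain ⟨b1, b2⟩ := um_bound hW j
    apply le_min _ b2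
    refine b1.trans ?_
    have hz1 : ‖(ZMod.stdAddChar j : ℂ)‖ = 1 := AddChar.norm_apply _ _
    have hmul : (ZMod.stdAddChar j : ℂ) * (ZMod.stdAddChar (-j) : ℂ) = 1 := by
      rw [← AddChar.map_add_eq_mul]; simp
    have : ‖1 - (ZMod.stdAddChar j : ℂ)‖ = ‖1 - (ZMod.stdAddChar (-j) : ℂ)‖ := by
      calc ‖1 - (ZMod.stdAddChar j : ℂ)‖
          = ‖1 - (ZMod.stdAddChar j : ℂ)‖ * ‖(ZMod.stdAddChar (-j) : ℂ)‖ := by rw [hz, mul_one]
        _ = ‖(ZMod.stdAddChar (-j) : ℂ) - 1‖ := by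
            rw [← norm_mul]; congr 1; linear_combination -hmul
        _ = _ := norm_sub_rev _ _
    rw [this]
  have : |P Q F r - 3 * U W (P Q F) r + 3 * U W (U W (P Q F)) r
      - U W (U W (U W (P Q F))) r| = ‖Syn (fun j => (1 - um W j)^3 * c j) r‖ := by
    rw [← hrep, Complex.norm_real, Real.norm_eq_abs]
  rw [this]
  unfold Syn
  refine (norm_sum_le _ _).trans ?_
  refine (sum_le_sum fun j _ => hnorm j).trans ?_
  rw [sum_const, card_univ, ZMod.card, nsmul_eq_mul]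
  field_simp
  exact le_refl _

/-- Near the mode the distribution of intersection sizes is flat. -/
theorem flat {n W s : ℕ} (hs : 28 * s ≤ W) (hW : 0 < W) (F : Finset (Finset (Fin n)))
    (hE : ∀ z : ℂ, ‖z‖ = 1 →
      (min (W * ‖1 - z‖) 2)^3 * ‖∑ A ∈ F, ∑ B ∈ F, z^(#(A ∩ B))‖ ≤ (#F:ℝ)^2 / (8 * Q)) :
    ∃ r : ZMod Q, ∀ t : ℕ, t ≤ s → (#F:ℝ)^2 ≤ 2 * Q * P Q F (r + t) := by
  have hQ : (0:ℝ) < Q := by exact_mod_cast Nat.pos_of_ne_zero (NeZero.ne Q)
  have hW' : (0:ℝ) < W := by exact_mod_cast hW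
  obtain ⟨r, _, hr⟩ := Finset.exists_max_image (univ : Finset (ZMod Q)) (P Q F)
    univ_nonempty
  set M := P Q F r with hM
  have h0 : ∀ x, 0 ≤ P Q F x := P_nonneg F
  have h1 : ∀ x, P Q F x ≤ M := fun x => hr x (mem_univ _)
  have hMQ : (#F:ℝ)^2 ≤ Q * M := by
    rw [← P_sum (Q := Q) F]
    refine (sum_le_sum fun x _ => h1 x).trans ?_
    rw [sum_const, card_univ, ZMod.card, nsmul_eq_mul]
  have hM0 : 0 ≤ M := h0 r
  refine ⟨r, fun t ht => ?_⟩
  have ht' : 28 * (t:ℝ) ≤ W := by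
    have : 28 * t ≤ W := by omega
    exact_mod_cast this
  have htM : t * (M / W) ≤ M / 28 := by
    rw [← mul_div_assoc, div_le_div_iff₀ hW' (by norm_num)]
    nlinarith
  have a1 := U_shift hW h0 h1 r t
  have b1 := U_bounds hW h0 h1
  have a2 := U_shift hW (fun x => (b1 x).1) (fun x => (b1 x).2) r t
  have b2 := U_bounds hW (fun x => (b1 x).1) (fun x => (b1 x).2)
  have a3 := U_shift hW (fun x => (b2 x).1) (fun x => (b2 x).2) r t
  have e1 := err_bound hW F hE r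
  have e2 := err_bound hW F hE (r + (t : ZMod Q))
  rw [abs_le] at a1 a2 a3 e1 e2
  have hE' : (#F:ℝ)^2 / (8 * Q) ≤ M / 8 := by
    rw [div_le_div_iff₀ (by positivity) (by norm_num)]
    nlinarith
  have hP : M / 2 ≤ P Q F (r + (t : ZMod Q)) := by
    have := hM
    linarith [a1.1, a1.2, a2.1, a2.2, a3.1, a3.2, e1.1, e1.2, e2.1, e2.2]
  nlinarith

end Pool.Agent.W213.WS
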