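import Pool.Agent.W213.WS.TwoPoint

set_option autoImplicit false

namespace Pool.Agent.W213.WS

open Real Finset

variable {ι : Type*} [DecidableEq ι]

/-- The tensorised `L^p → L^{p'}` bound. -/
theorem tensor_bound {q : ℕ} (hq : 2 ≤ q) (z : ℂ) (hz : ‖z‖ = 1)
    (hqd : 36 ≤ ((q:ℝ)+1) * ‖1-z‖^2) (s : Finset ι) :
    ∀ f : Finset ι → ℂ,
    ∑ A ∈ s.powerset, ‖∑ B ∈ s.powerset, z^(#(A ∩ B)) * f B‖^(q+1)
      ≤ (39/10)^(#s) * (∑ B ∈ s.powerset, ‖f B‖^(1+1/(q:ℝ)))^q := by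
  have hq0 : (q:ℝ) ≠ 0 := by positivity
  have hq1 : (1:ℝ) ≤ q := by
    have : 1 ≤ q := by omega
    exact_mod_cast this
  induction s using Finset.induction_on with
  | empty =>
    intro f
    simp only [powerset_empty, sum_singleton, inter_self, card_empty, pow_zero, one_mul]
    rw [pow_split hq (norm_nonneg _)]
  | insert a s ha ih =>
    intro f
    have hdisj : ∀ A ∈ s.powerset, a ∉ A := by
      intro A hA haA
      exact ha (mem_powerset.1 hA haA)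
    set f0 : Finset ι → ℂ := f
    set f1 : Finset ι → ℂ := fun B => f (insert a B)
    set a0 : Finset ι → ℂ := fun A => ∑ B ∈ s.powerset, z^(#(A ∩ B)) * f0 B
    set a1 : Finset ι → ℂ := fun A => ∑ B ∈ s.powerset, z^(#(A ∩ B)) * f1 B
    set X := ∑ B ∈ s.powerset, ‖f0 B‖^(1+1/(q:ℝ))
    set Y := ∑ B ∈ s.powerset, ‖f1 B‖^(1+1/(q:ℝ))
    have hX : 0 ≤ X := sum_nonneg fun _ _ => by positivity
    have hY : 0 ≤ Y := sum_nonneg fun _ _ => by positivity
    have hR : ∑ B ∈ (insert a s).powerset, ‖f B‖^(1+1/(q:ℝ)) = X + Y := by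
      rw [sum_powerset_insert ha]
    rw [hR]
    have h0 : ∀ A ∈ s.powerset,
        ∑ B ∈ (insert a s).powerset, z^(#(A ∩ B)) * f B = a0 A + a1 A := by
      intro A hA
      rw [sum_powerset_insert ha]
      congr 1
      apply sum_congr rfl
      intro B hB
      rw [Finset.inter_insert_of_notMem (hdisj A hA)]
    have h1 : ∀ A ∈ s.powerset,
        ∑ B ∈ (insert a s).powerset, z^(#(insert a A ∩ B)) * f B = a0 A + z * a1 A := by
      intro A hA
      rw [sum_powerset_insert ha, mul_sum]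
      congr 1
      · apply sum_congr rfl
        intro B hB
        rw [Finset.insert_inter_of_notMem (hdisj B hB)]
      · apply sum_congr rfl
        intro B hB
        rw [← Finset.insert_inter_distrib, card_insert_of_notMem]
        · ring
        · intro h
          exact hdisj A hA (mem_inter.1 h).1
    rw [sum_powerset_insert ha, ← sum_add_distrib]
    have hstep : ∀ A ∈ s.powerset,
        ‖∑ B ∈ (insert a s).powerset, z^(#(A ∩ B)) * f B‖^(q+1)
        + ‖∑ B ∈ (insert a s).powerset, z^(#(insert a A ∩ B)) * f B‖^(q+1)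
        ≤ (39/10) * (‖a0 A‖^(1+1/(q:ℝ)) + ‖a1 A‖^(1+1/(q:ℝ)))^q := by
      intro A hA
      rw [h0 A hA, h1 A hA]
      exact two_point hq _ _ z hz hqd
    refine (sum_le_sum hstep).trans ?_
    rw [← mul_sum, card_insert_of_notMem ha, pow_succ']
    rw [mul_assoc]
    apply mul_le_mul_of_nonneg_left _ (by norm_num)
    have hM := Real.Lp_add_le_of_nonneg s.powerset (f := fun A => ‖a0 A‖^(1+1/(q:ℝ)))
      (g := fun A => ‖a1 A‖^(1+1/(q:ℝ))) (p := (q:ℝ)) hq1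
      (fun _ _ => by positivity) (fun _ _ => by positivity)
    simp only [Real.rpow_natCast] at hM
    have e0 : ∑ A ∈ s.powerset, (‖a0 A‖^(1+1/(q:ℝ)))^q ≤ (39/10)^(#s) * X^q := by
      have := ih f0
      simp only [pow_split hq (norm_nonneg _)] at this
      exact this
    have e1 : ∑ A ∈ s.powerset, (‖a1 A‖^(1+1/(q:ℝ)))^q ≤ (39/10)^(#s) * Y^q := by
      have := ih f1
      simp only [pow_split hq (norm_nonneg _)] at this
      exact this
    set R : ℝ := (39/10)^(#s) with hRdef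
    have hR0 : 0 ≤ R := by positivity
    have hroot : ∀ (T Z : ℝ), 0 ≤ T → 0 ≤ Z → T ≤ R * Z^q →
        T ^ (1/(q:ℝ)) ≤ R^(1/(q:ℝ)) * Z := by
      intro T Z hT hZ hTZ
      calc T ^ (1/(q:ℝ)) ≤ (R * Z^q)^(1/(q:ℝ)) :=
            Real.rpow_le_rpow hT hTZ (by positivity)
        _ = R^(1/(q:ℝ)) * Z := by
            rw [Real.mul_rpow hR0 (by positivity), ← Real.rpow_natCast Z, ← Real.rpow_mul hZ]
            rw [mul_one_div_cancel hq0, Real.rpow_one]
    have g0 := hroot _ X (sum_nonneg fun _ _ => by positivity) hX e0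
    have g1 := hroot _ Y (sum_nonneg fun _ _ => by positivity) hY e1
    set W := ∑ A ∈ s.powerset, (‖a0 A‖^(1+1/(q:ℝ)) + ‖a1 A‖^(1+1/(q:ℝ)))^q with hW
    have hW0 : 0 ≤ W := sum_nonneg fun _ _ => by positivity
    have hfin : W ^ (1/(q:ℝ)) ≤ R^(1/(q:ℝ)) * (X+Y) := by
      calc W ^ (1/(q:ℝ)) ≤ _ := hM
        _ ≤ R^(1/(q:ℝ)) * X + R^(1/(q:ℝ)) * Y := add_le_add g0 g1
        _ = _ := by ring
    have hq' : q ≠ 0 := by omega
    calc W = (W ^ (1/(q:ℝ)))^q := by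
          rw [← Real.rpow_natCast, ← Real.rpow_mul hW0, one_div_mul_cancel hq0, Real.rpow_one]
      _ ≤ (R^(1/(q:ℝ)) * (X+Y))^q := by gcongr
      _ = R * (X+Y)^q := by
          rw [mul_pow]
          congr 1
          rw [← Real.rpow_natCast, ← Real.rpow_mul hR0, one_div_mul_cancel hq0, Real.rpow_one]

/-- The bilinear bound for families of sets. -/
theorem char_bound {n q : ℕ} (hq : 2 ≤ q) (z : ℂ) (hz : ‖z‖ = 1)
    (hqd : 36 ≤ ((q:ℝ)+1) * ‖1-z‖^2) (F : Finset (Finset (Fin n))) :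
    ‖∑ A ∈ F, ∑ B ∈ F, z^(#(A ∩ B))‖^(q+1) ≤ (39/10)^n * (#F:ℝ)^(2*q) := by
  have hq0 : (q:ℝ) ≠ 0 := by positivity
  have h := tensor_bound hq z hz hqd (univ : Finset (Fin n))
    (fun B => if B ∈ F then (1:ℂ) else 0)
  have e1 : ∑ B ∈ (univ : Finset (Fin n)).powerset,
      ‖(if B ∈ F then (1:ℂ) else 0)‖^(1+1/(q:ℝ)) = (#F:ℝ) := by
    have : ∀ B : Finset (Fin n), ‖(if B ∈ F then (1:ℂ) else 0)‖^(1+1/(q:ℝ))
        = if B ∈ F then (1:ℝ) else 0 := by
      intro B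
      split_ifs
      · simp
      · rw [norm_zero, Real.zero_rpow (by positivity)]
    simp only [this, powerset_univ, sum_ite_mem, univ_inter, sum_const, nsmul_eq_mul, mul_one]
  rw [e1, card_univ, Fintype.card_fin] at h
  have e2 : ∀ A : Finset (Fin n), ∑ B : Finset (Fin n),
      z^(#(A ∩ B)) * (if B ∈ F then (1:ℂ) else 0) = ∑ B ∈ F, z^(#(A ∩ B)) := by
    intro A
    simp only [mul_ite, mul_one, mul_zero, sum_ite_mem, univ_inter]
  rw [powerset_univ] at h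
  simp only [e2] at h
  have h2 : ∑ A ∈ F, ‖∑ B ∈ F, z^(#(A ∩ B))‖^(q+1) ≤ (39/10)^n * (#F:ℝ)^q := by
    refine (sum_le_sum_of_subset_of_nonneg (subset_univ F) fun _ _ _ => by positivity).trans h
  have h3 := pow_sum_le_card_mul_sum_pow (s := F) (f := fun A => ‖∑ B ∈ F, z^(#(A ∩ B))‖)
    (fun _ _ => norm_nonneg _) q
  calc ‖∑ A ∈ F, ∑ B ∈ F, z^(#(A ∩ B))‖^(q+1)
      ≤ (∑ A ∈ F, ‖∑ B ∈ F, z^(#(A ∩ B))‖)^(q+1) := by
        gcongr; exact norm_sum_le _ _
    _ ≤ (#F:ℝ)^q * ∑ A ∈ F, ‖∑ B ∈ F, z^(#(A ∩ B))‖^(q+1) := h3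
    _ ≤ (#F:ℝ)^q * ((39/10)^n * (#F:ℝ)^q) := by gcongr
    _ = (39/10)^n * (#F:ℝ)^(2*q) := by ring

end Pool.Agent.W213.WS
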