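import Mathlib

set_option autoImplicit false

namespace Pool.Agent.W213.WS

open Real

lemma num_ineq {e : ℝ} (he0 : 0 ≤ e) (he1 : e ≤ 1/2) :
    2/3 * (3/2 : ℝ)^e + 1/3 * (3:ℝ)^e ≤ (39/20 : ℝ)^e := by
  have hc := Real.concaveOn_rpow (p := 2*e) (by linarith) (by linarith)
  have key : ∀ t : ℝ, 0 ≤ t → t ^ e = (√t) ^ (2 * e) := by
    intro t ht
    rw [Real.rpow_mul (Real.sqrt_nonneg _), Real.rpow_two, Real.sq_sqrt ht]
  rw [key (3/2) (by norm_num), key 3 (by norm_num), key (39/20) (by norm_num)]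
  have hj := (hc.2 : _) (show √(3/2) ∈ Set.Ici (0:ℝ) from Real.sqrt_nonneg _)
    (show √3 ∈ Set.Ici (0:ℝ) from Real.sqrt_nonneg _)
    (show (0:ℝ) ≤ 2/3 by norm_num) (show (0:ℝ) ≤ 1/3 by norm_num) (by norm_num)
  simp only [smul_eq_mul] at hj
  refine hj.trans ?_
  apply Real.rpow_le_rpow (by positivity) _ (by linarith)
  have h1 : √(3/2) ≤ 1.2248 := by
    rw [Real.sqrt_le_left (by norm_num)]; norm_num
  have h2 : √3 ≤ 1.7321 := by
    rw [Real.sqrt_le_left (by norm_num)]; norm_num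
  have h3 : 1.3964 ≤ √(39/20) := by
    apply Real.le_sqrt_of_sq_le; norm_num
  linarith

lemma pow_split {q : ℕ} (hq : 2 ≤ q) {x : ℝ} (hx : 0 ≤ x) :
    x ^ (q+1) = (x ^ (1 + 1/(q:ℝ))) ^ q := by
  have hq0 : (q:ℝ) ≠ 0 := by positivity
  rw [← Real.rpow_natCast, ← Real.rpow_natCast, ← Real.rpow_mul hx]
  congr 1
  push_cast
  field_simp

lemma rpow_one_add {x e : ℝ} (hx : 0 ≤ x) (he : 0 ≤ e) : x ^ (1 + e) = x * x ^ e := by
  rcases hx.eq_or_lt with rfl | hx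
  · rw [Real.zero_rpow (by positivity)]; simp
  · rw [Real.rpow_add hx, Real.rpow_one]

lemma case_small {q : ℕ} (hq : 2 ≤ q) {x y : ℝ} (hx : 0 ≤ x) (hy : 0 ≤ y) (hyx : 2*y ≤ x) :
    (x+y)^(q+1) ≤ (39/20) * (x^(1+1/(q:ℝ)) + y^(1+1/(q:ℝ)))^q := by
  have hq2 : (2:ℝ) ≤ q := by exact_mod_cast hq
  set e : ℝ := 1/(q:ℝ) with he
  have he0 : 0 ≤ e := by positivity
  have he1 : e ≤ 1/2 := by
    rw [he]; gcongr
  have heq : e * q = 1 := by rw [he]; field_simp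
  have hcv := convexOn_rpow (p := 1 + e) (by linarith)
  have hj := (hcv.2 : _) (show 3/2 * x ∈ Set.Ici (0:ℝ) from Set.mem_Ici.2 (by positivity))
    (show 3 * y ∈ Set.Ici (0:ℝ) from Set.mem_Ici.2 (by positivity))
    (show (0:ℝ) ≤ 2/3 by norm_num) (show (0:ℝ) ≤ 1/3 by norm_num) (by norm_num)
  simp only [smul_eq_mul] at hj
  rw [Real.mul_rpow (by norm_num) hx, Real.mul_rpow (by norm_num) hy,
    rpow_one_add (by norm_num : (0:ℝ) ≤ 3/2) he0, rpow_one_add (by norm_num : (0:ℝ) ≤ 3) he0] at hj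
  have hxy : 2/3 * (3/2*x) + 1/3*(3*y) = x + y := by ring
  rw [hxy] at hj
  set A := (3/2:ℝ)^e
  set B := (3:ℝ)^e
  set C := (39/20:ℝ)^e with hC
  have hABC : 2/3 * A + 1/3 * B ≤ C := num_ineq he0 he1
  have hC0 : 0 < C := by positivity
  set X := x ^ (1+e)
  set Y := y ^ (1+e)
  have hX : 0 ≤ X := by positivity
  have hY : 0 ≤ Y := by positivity
  have hYX : 2 * Y ≤ X := by
    have h1 : (2:ℝ) * Y ≤ 2 ^ (1+e) * Y := by
      gcongr
      rw [rpow_one_add (by norm_num) he0]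
      have : (1:ℝ) ≤ 2 ^ e := Real.one_le_rpow (by norm_num) he0
      linarith
    refine h1.trans ?_
    rw [← Real.mul_rpow (by norm_num) hy]
    exact Real.rpow_le_rpow (by positivity) hyx (by linarith)
  have hAB : A ≤ B := Real.rpow_le_rpow (by norm_num) (by norm_num) he0
  have hmain : (x+y)^(1+e) ≤ C * (X + Y) := by
    have h1 : (x+y)^(1+e) ≤ A * X + B * Y := by linarith
    refine h1.trans ?_
    rcases le_total B C with h | h
    · have : A ≤ C := hAB.trans h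
      have h3 : A * X ≤ C * X := by gcongr
      have h4 : B * Y ≤ C * Y := by gcongr
      linarith
    · have h3 : (B - C) * (2 * Y) ≤ (B - C) * X := by
        apply mul_le_mul_of_nonneg_left hYX; linarith
      have h4 : (2 * A + B) * X ≤ 3 * C * X := by
        apply mul_le_mul_of_nonneg_right _ hX; linarith
      nlinarith
  rw [pow_split hq (by positivity)]
  calc ((x + y) ^ (1 + e)) ^ q ≤ (C * (X + Y))^q := by gcongr
    _ = C ^ q * (X+Y)^q := by rw [mul_pow]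
    _ = 39/20 * (X+Y)^q := by
        congr 1
        rw [hC, ← Real.rpow_natCast, ← Real.rpow_mul (by norm_num), heq, Real.rpow_one]

lemma case_gen {q : ℕ} (hq : 2 ≤ q) {x y : ℝ} (hx : 0 ≤ x) (hy : 0 ≤ y) :
    (x+y)^(q+1) ≤ 2 * (x^(1+1/(q:ℝ)) + y^(1+1/(q:ℝ)))^q := by
  have hq2 : (2:ℝ) ≤ q := by exact_mod_cast hq
  set e : ℝ := 1/(q:ℝ) with he
  have he0 : 0 ≤ e := by positivity
  have heq : e * q = 1 := by rw [he]; field_simp
  have hcv := convexOn_rpow (p := 1 + e) (by linarith)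
  have hj := (hcv.2 : _) (show 2 * x ∈ Set.Ici (0:ℝ) from Set.mem_Ici.2 (by positivity))
    (show 2 * y ∈ Set.Ici (0:ℝ) from Set.mem_Ici.2 (by positivity))
    (show (0:ℝ) ≤ 1/2 by norm_num) (show (0:ℝ) ≤ 1/2 by norm_num) (by norm_num)
  simp only [smul_eq_mul] at hj
  rw [Real.mul_rpow (by norm_num) hx, Real.mul_rpow (by norm_num) hy,
    rpow_one_add (by norm_num : (0:ℝ) ≤ 2) he0] at hj
  have hxy : 1/2 * (2*x) + 1/2*(2*y) = x + y := by ring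
  rw [hxy] at hj
  set C := (2:ℝ)^e with hC
  set X := x ^ (1+e)
  set Y := y ^ (1+e)
  have hX : 0 ≤ X := by positivity
  have hY : 0 ≤ Y := by positivity
  have hmain : (x+y)^(1+e) ≤ C * (X + Y) := by linarith
  rw [pow_split hq (by positivity)]
  calc ((x + y) ^ (1 + e)) ^ q ≤ (C * (X + Y))^q := by gcongr
    _ = C ^ q * (X+Y)^q := by rw [mul_pow]
    _ = 2 * (X+Y)^q := by
        congr 1
        rw [hC, ← Real.rpow_natCast, ← Real.rpow_mul (by norm_num), heq, Real.rpow_one]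

lemma one_sub_pow_le {x : ℝ} (hx0 : 0 ≤ x) (hx1 : x ≤ 1) (n : ℕ) (hn : 1 ≤ n * x) :
    (1 - x)^n ≤ 1/2 := by
  have h1 : 1 + n * x ≤ (1+x)^n := one_add_mul_le_pow (by linarith) n
  have h2 : (1-x)^n * (1+x)^n ≤ 1 := by
    rw [← mul_pow]
    apply pow_le_one₀
    · nlinarith
    · nlinarith
  have h3 : 0 ≤ (1-x)^n := by
    apply pow_nonneg; linarith
  nlinarith

lemma sum_sq_bound (a b z : ℂ) (hz : ‖z‖ = 1) :
    ‖a+b‖^2 + ‖a+z*b‖^2 ≤ 2*(‖a‖+‖b‖)^2 - ‖a‖*‖b‖*‖1-z‖^2/2 := by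
  have hpar : ‖1+z‖^2 + ‖1-z‖^2 = 4 := by
    have := parallelogram_law_with_norm ℝ (1:ℂ) z
    simp only [norm_one, hz] at this
    nlinarith
  have hd : ‖1+z‖ ≤ 2 - ‖1-z‖^2/4 := by
    have h1 : ‖1-z‖^2 ≤ 4 := by nlinarith [sq_nonneg ‖1+z‖]
    apply abs_le_of_sq_le_sq' _ (by linarith) |>.2
    nlinarith [sq_nonneg (‖1-z‖^2)]
  have e1 : ‖a+b‖^2 = ‖a‖^2 + ‖b‖^2 + 2 * (a * (starRingEnd ℂ) b).re := by
    rw [← Complex.normSq_eq_norm_sq, ← Complex.normSq_eq_norm_sq, ← Complex.normSq_eq_norm_sq,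
      Complex.normSq_add]
  have e2 : ‖a+z*b‖^2 = ‖a‖^2 + ‖b‖^2 + 2 * (a * (starRingEnd ℂ) (z*b)).re := by
    have : ‖b‖^2 = ‖z*b‖^2 := by rw [norm_mul, hz, one_mul]
    rw [this]
    rw [← Complex.normSq_eq_norm_sq, ← Complex.normSq_eq_norm_sq, ← Complex.normSq_eq_norm_sq,
      Complex.normSq_add]
  have e3 : (a * (starRingEnd ℂ) b).re + (a * (starRingEnd ℂ) (z*b)).re ≤ ‖a‖ * ‖b‖ * ‖1+z‖ := by
    rw [← Complex.add_re]
    refine (Complex.re_le_norm _).trans ?_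
    have : a * (starRingEnd ℂ) b + a * (starRingEnd ℂ) (z*b)
        = a * (starRingEnd ℂ) b * (starRingEnd ℂ) (1+z) := by
      simp only [map_mul, map_add, map_one]; ring
    rw [this, norm_mul, norm_mul, RCLike.norm_conj, RCLike.norm_conj]
  have e4 : ‖a‖ * ‖b‖ * ‖1+z‖ ≤ ‖a‖ * ‖b‖ * (2 - ‖1-z‖^2/4) := by gcongr
  nlinarith

theorem two_point {q : ℕ} (hq : 2 ≤ q) (a b z : ℂ) (hz : ‖z‖ = 1)
    (hqd : 36 ≤ ((q:ℝ)+1) * ‖1-z‖^2) :
    ‖a+b‖^(q+1) + ‖a+z*b‖^(q+1)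
      ≤ (39/10) * (‖a‖^(1+1/(q:ℝ)) + ‖b‖^(1+1/(q:ℝ)))^q := by
  have hx : 0 ≤ ‖a‖ := norm_nonneg _
  have hy : 0 ≤ ‖b‖ := norm_nonneg _
  have h1 : ‖a+b‖ ≤ ‖a‖+‖b‖ := norm_add_le _ _
  have h2 : ‖a+z*b‖ ≤ ‖a‖+‖b‖ := by
    refine (norm_add_le _ _).trans ?_
    rw [norm_mul, hz, one_mul]
  have hS1 : ‖a+b‖^(q+1) ≤ (‖a‖+‖b‖)^(q+1) := by gcongr
  have hS2 : ‖a+z*b‖^(q+1) ≤ (‖a‖+‖b‖)^(q+1) := by gcongr
  rcases le_or_gt (2*‖b‖) ‖a‖ with hc | hc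
  · have := case_small hq hx hy hc
    linarith
  rcases le_or_gt (2*‖a‖) ‖b‖ with hc' | hc'
  · have := case_small hq hy hx hc'
    rw [add_comm ‖b‖, add_comm (‖b‖ ^ _)] at this
    linarith
  have hg := case_gen hq hx hy
  have hsq := sum_sq_bound a b z hz
  set x := ‖a‖
  set y := ‖b‖
  set d := ‖1-z‖ with hd
  have hd0 : 0 ≤ d := norm_nonneg _
  have hd2 : d ≤ 2 := by
    rw [hd]
    refine (norm_sub_le _ _).trans ?_
    rw [hz, norm_one]; norm_num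
  have hxy : 2/9 * (x+y)^2 ≤ x*y := by nlinarith
  have hsq' : ‖a+b‖^2 + ‖a+z*b‖^2 ≤ 2*((x+y)^2 * (1 - d^2/18)) := by
    have : 2/9 * (x+y)^2 * d^2 ≤ x*y*d^2 := by gcongr
    nlinarith
  have hu0 : 0 ≤ 1 - d^2/36 := by nlinarith
  have hhalf : (1 - d^2/36)^(q+1) ≤ 1/2 := by
    apply one_sub_pow_le (by positivity) (by nlinarith)
    push_cast
    linarith
  have hsmall : ∀ t : ℝ, 0 ≤ t → t^2 ≤ (x+y)^2 * (1 - d^2/18) →
      t^(q+1) ≤ (x+y)^(q+1) / 2 := by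
    intro t ht ht2
    have h3 : t ≤ (x+y) * (1 - d^2/36) := by
      apply abs_le_of_sq_le_sq' _ (by positivity) |>.2
      rw [mul_pow]
      refine ht2.trans ?_
      gcongr
      nlinarith [sq_nonneg (d^2)]
    calc t^(q+1) ≤ ((x+y) * (1 - d^2/36))^(q+1) := by gcongr
      _ = (x+y)^(q+1) * (1 - d^2/36)^(q+1) := by rw [mul_pow]
      _ ≤ (x+y)^(q+1) * (1/2) := by gcongr
      _ = (x+y)^(q+1) / 2 := by ring
  rcases le_total (‖a+b‖^2) (‖a+z*b‖^2) with h | h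
  · have := hsmall ‖a+b‖ (norm_nonneg _) (by linarith)
    have hnn : 0 ≤ (x ^ (1 + 1 / (q:ℝ)) + y ^ (1 + 1 / (q:ℝ))) ^ q := by positivity
    linarith
  · have := hsmall ‖a+z*b‖ (norm_nonneg _) (by linarith)
    have hnn : 0 ≤ (x ^ (1 + 1 / (q:ℝ)) + y ^ (1 + 1 / (q:ℝ))) ^ q := by positivity
    linarith

end Pool.Agent.W213.WS
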